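import Mathlib

set_option autoImplicit false

open Set Cardinal

namespace Pool.Agent.Helper18.Omega1

/-- The well-ordered type of the first uncountable ordinal. -/
abbrev W : Type := (Cardinal.aleph 1).ord.ToType

theorem cof_W : Order.cof W = Cardinal.aleph 1 := by
  rw [Ordinal.cof_toType]
  exact isRegular_aleph_one.cof_ord

theorem countable_bdd (s : Set W) (hs : s.Countable) : ∃ b : W, ∀ a ∈ s, a < b := by
  by_contra h
  push Not at h
  have h1 : IsCofinal s := by
    intro b
    obtain ⟨a, ha, hab⟩ := h b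
    exact ⟨a, ha, hab⟩
  have h2 := Order.cof_le h1
  rw [cof_W] at h2
  have h3 : #s ≤ ℵ₀ := Cardinal.le_aleph0_iff_set_countable.2 hs
  exact absurd (h2.trans h3) (not_le.2 aleph0_lt_aleph_one)

instance : Nonempty W := by
  obtain ⟨b, _⟩ := countable_bdd ∅ countable_empty
  exact ⟨b⟩

theorem exists_gt' (a : W) : ∃ b, a < b := by
  obtain ⟨b, hb⟩ := countable_bdd {a} (countable_singleton a)
  exact ⟨b, hb a rfl⟩

instance : NoMaxOrder W := ⟨exists_gt'⟩

end Pool.Agent.Helper18.Omega1
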