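import Mathlib
import Pool.Agent.Helper18.Omega1

set_option autoImplicit false
open Set Cardinal Pool.Agent.Helper18.Omega1

namespace Pool.Agent.Helper18.CoreRudin

theorem mk_W : #W = aleph 1 := by
  rw [Cardinal.mk_toType, Cardinal.card_ord]

/-- The rationals as a subgroup of the reals. -/
noncomputable def Q : AddSubgroup ℝ := (Rat.castHom ℝ).toAddMonoidHom.range

theorem countable_Q : (Q : Set ℝ).Countable := by
  have : (Q : Set ℝ) = range (fun q : ℚ => (q : ℝ)) := by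
    ext x; simp [Q]
  rw [this]; exact countable_range _

/-- There is a map from the reals onto the first uncountable ordinal with dense fibres. -/
theorem exists_h : ∃ h : ℝ → W, ∀ z, ∀ a b : ℝ, a < b → ∃ x, a < x ∧ x < b ∧ h x = z := by
  have hunc : Uncountable (ℝ ⧸ Q) := by
    by_contra hcon
    rw [not_uncountable_iff] at hcon
    have h1 : (univ : Set ℝ).Countable := by
      have : (univ : Set ℝ) = ⋃ c : ℝ ⧸ Q, {x : ℝ | (x : ℝ ⧸ Q) = c} := by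
        ext x; simp
      rw [this]
      refine countable_iUnion fun c => ?_
      obtain ⟨y, rfl⟩ := QuotientAddGroup.mk_surjective c
      have h2 : {x : ℝ | (x : ℝ ⧸ Q) = (y : ℝ ⧸ Q)} ⊆ (fun q => y + q) '' (Q : Set ℝ) := by
        intro x hx
        have h3 : (y : ℝ ⧸ Q) = (x : ℝ ⧸ Q) := hx.symm
        rw [QuotientAddGroup.eq] at h3
        exact ⟨-y + x, h3, by ring⟩
      exact (countable_Q.image _).mono h2
    exact Cardinal.not_countable_real h1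
  have h1 : #W ≤ #(ℝ ⧸ Q) := by
    rw [mk_W]
    rw [← Cardinal.succ_aleph0, Order.succ_le_iff]
    exact Cardinal.aleph0_lt_mk_iff.2 hunc
  obtain ⟨e⟩ := h1
  let g : ℝ ⧸ Q → W := Function.invFun e
  have hg : ∀ z, g (e z) = z := fun z => Function.leftInverse_invFun e.injective z
  refine ⟨fun x => g x, fun z a b hab => ?_⟩
  obtain ⟨y, hy⟩ := QuotientAddGroup.mk_surjective (e z)
  obtain ⟨q, hq1, hq2⟩ := exists_rat_btwn (show a - y < b - y by linarith)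
  refine ⟨y + q, by linarith, by linarith, ?_⟩
  have : ((y + q : ℝ) : ℝ ⧸ Q) = (y : ℝ ⧸ Q) := by
    symm
    rw [QuotientAddGroup.eq]
    refine ⟨q, ?_⟩
    simp
  show g _ = z
  rw [this, ← hg z]
  congr 1

noncomputable local instance instTopW : TopologicalSpace W := Preorder.topology W
local instance instOrdTopW : OrderTopology W := ⟨rfl⟩

attribute [local instance] WellFoundedLT.toOrderBot
  WellFoundedLT.conditionallyCompleteLinearOrderBot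

theorem exists_covBy (b : W) : ∃ c, b < c ∧ ∀ x, b < x → c ≤ x := by
  obtain ⟨c0, hc0⟩ := exists_gt' b
  have hwf : WellFounded ((· < ·) : W → W → Prop) := wellFounded_lt
  refine ⟨hwf.min {x | b < x} ⟨c0, hc0⟩, hwf.min_mem _ _, fun x hx => ?_⟩
  exact not_lt.1 (hwf.not_lt_min {x | b < x} hx)

theorem isClopen_Iic (b : W) : IsClopen (Iic b) := by
  refine ⟨isClosed_Iic, ?_⟩
  obtain ⟨c, hc, hc'⟩ := exists_covBy b
  have : Iic b = Iio c := by
    ext x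
    constructor
    · intro h; exact lt_of_le_of_lt h hc
    · intro h
      by_contra hx
      exact absurd (hc' x (not_le.1 hx)) (not_le.2 h)
  rw [this]; exact isOpen_Iio

/-- The clopen bounded sets. -/
def CB (D : Set W) : Prop := IsClopen D ∧ BddAbove D

theorem cb_empty : CB ∅ := ⟨isClopen_empty, bddAbove_empty⟩

theorem CB.union {D E : Set W} (hD : CB D) (hE : CB E) : CB (D ∪ E) :=
  ⟨hD.1.union hE.1, hD.2.union hE.2⟩

theorem cb_Iic (b : W) : CB (Iic b) := ⟨isClopen_Iic b, bddAbove_Iic⟩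

theorem cb_Ioc (a b : W) : CB (Ioc a b) := by
  have : Ioc a b = Iic b ∩ (Iic a)ᶜ := by
    ext x; simp [and_comm]
  refine ⟨?_, bddAbove_Ioc⟩
  rw [this]
  exact (isClopen_Iic b).inter (isClopen_Iic a).compl

theorem CB.isCompact {D : Set W} (hD : CB D) : IsCompact D := by
  obtain ⟨b, hb⟩ := hD.2
  exact (isCompact_Icc (a := ⊥) (b := b)).of_isClosed_subset hD.1.1 fun x hx => ⟨bot_le, hb hx⟩

/-- Distinct points are separated by clopen bounded sets. -/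
theorem exists_cb {y z : W} (h : y ≠ z) : ∃ D, CB D ∧ y ∈ D ∧ z ∉ D := by
  rcases lt_or_gt_of_ne h with h | h
  · exact ⟨Iic y, cb_Iic y, le_refl y, not_le.2 h⟩
  · exact ⟨Ioc z y, cb_Ioc z y, ⟨h, le_refl y⟩, fun hz => lt_irrefl _ hz.1⟩

/-- The chosen map with dense fibres. -/
noncomputable def h : ℝ → W := exists_h.choose

theorem h_spec (z : W) (a b : ℝ) (hab : a < b) : ∃ x, a < x ∧ x < b ∧ h x = z :=
  exists_h.choose_spec z a b hab

/-- The underlying set of the space. -/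
def X : Type := ℝ

/-- The basic open set given by a clopen bounded set and a real number. -/
def B (D : Set W) (r : ℝ) : Set X := {x : ℝ | h x ∉ D ∧ r < x}

instance instTopX : TopologicalSpace X where
  IsOpen U := ∀ x : ℝ, x ∈ (U : Set ℝ) → ∃ D, CB D ∧ ∃ r, x ∈ B D r ∧ B D r ⊆ U
  isOpen_univ := fun x _ => ⟨∅, cb_empty, x - 1, ⟨by simp, by linarith⟩, subset_univ _⟩
  isOpen_inter := by
    intro s t hs ht x hx
    obtain ⟨D, hD, r, hx1, hs1⟩ := hs x hx.1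
    obtain ⟨E, hE, q, hx2, hs2⟩ := ht x hx.2
    refine ⟨D ∪ E, hD.union hE, max r q, ⟨?_, max_lt hx1.2 hx2.2⟩, fun y hy => ⟨hs1 ?_, hs2 ?_⟩⟩
    · rintro (hh | hh)
      · exact hx1.1 hh
      · exact hx2.1 hh
    · exact ⟨fun hh => hy.1 (Or.inl hh), lt_of_le_of_lt (le_max_left _ _) hy.2⟩
    · exact ⟨fun hh => hy.1 (Or.inr hh), lt_of_le_of_lt (le_max_right _ _) hy.2⟩
  isOpen_sUnion := by
    intro S hS x hx
    obtain ⟨s, hs, hxs⟩ := hx
    obtain ⟨D, hD, r, hx1, hs1⟩ := hS s hs x hxs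
    exact ⟨D, hD, r, hx1, hs1.trans (subset_sUnion_of_mem hs)⟩

theorem isOpen_iff {U : Set X} : IsOpen U ↔
    ∀ x : ℝ, x ∈ (U : Set ℝ) → ∃ D, CB D ∧ ∃ r, x ∈ B D r ∧ B D r ⊆ U := Iff.rfl

theorem isOpen_B {D : Set W} (hD : CB D) (r : ℝ) : IsOpen (B D r) :=
  isOpen_iff.2 fun _ hx => ⟨D, hD, r, hx, subset_rfl⟩

/-- The part of the space above a clopen bounded set's complement. -/
theorem isOpen_compl {D : Set W} (hD : CB D) : IsOpen ({x : ℝ | h x ∉ D} : Set X) :=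
  isOpen_iff.2 fun x hx => ⟨D, hD, x - 1, ⟨hx, by linarith⟩, fun _ hy => hy.1⟩

theorem isOpen_ray (r : ℝ) : IsOpen ({x : ℝ | r < x} : Set X) :=
  isOpen_iff.2 fun x hx => ⟨∅, cb_empty, r, ⟨by simp, hx⟩, fun _ hy => hy.2⟩

theorem isOpen_ne (z : W) : IsOpen ({x : ℝ | h x ≠ z} : Set X) :=
  isOpen_iff.2 fun x hx => by
    obtain ⟨D, hD, hz, hx'⟩ := exists_cb (Ne.symm hx)
    exact ⟨D, hD, x - 1, ⟨hx', by linarith⟩, fun y hy he => hy.1 (by rw [he]; exact hz)⟩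

instance : T0Space X := by
  refine ⟨fun x y hxy => ?_⟩
  by_contra hne
  have key : ∀ U : Set X, IsOpen U → (x ∈ U ↔ y ∈ U) := fun U hU => hxy.mem_open_iff hU
  by_cases hh : h x = h y
  · rcases lt_or_gt_of_ne (α := ℝ) hne with hlt | hlt
    · exact @lt_irrefl ℝ _ x ((key _ (isOpen_ray x)).2 hlt)
    · exact @lt_irrefl ℝ _ y ((key _ (isOpen_ray y)).1 hlt)
  · have := (key _ (isOpen_ne (h y))).1 hh
    exact this rfl

/-- Core compactness. -/
theorem coreCompact (U : Set X) (hU : IsOpen U) (x : X) (hx : x ∈ U) :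
    ∃ V : Set X, IsOpen V ∧ x ∈ V ∧ V ⊆ U ∧
        ∀ 𝒰 : Set (Set X), (∀ W ∈ 𝒰, IsOpen W) → U ⊆ ⋃₀ 𝒰 →
          ∃ 𝒱 ⊆ 𝒰, 𝒱.Finite ∧ V ⊆ ⋃₀ 𝒱 := by
  obtain ⟨D, hD, r, hxB, hBU⟩ := hU x hx
  obtain ⟨r', hr1, hr2⟩ := exists_between hxB.2
  refine ⟨B D r', isOpen_B hD r', ⟨hxB.1, hr2⟩, fun y hy => hBU ⟨hy.1, hr1.trans hy.2⟩, ?_⟩
  intro 𝒰 hop hcov
  have claim : ∀ y : W, y ∉ D → ∃ u ∈ 𝒰, ∃ E, CB E ∧ y ∉ E ∧ B E r' ⊆ u := by
    intro y hy
    obtain ⟨s, hs1, hs2, hs3⟩ := h_spec y r r' hr1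
    obtain ⟨u, hu, hsu⟩ := hcov (hBU (show s ∈ B D r from ⟨by rw [hs3]; exact hy, hs1⟩))
    obtain ⟨E, hE, t, ht1, ht2⟩ := hop u hu s hsu
    refine ⟨u, hu, E, hE, by rw [← hs3]; exact ht1.1, fun w hw => ht2 ⟨hw.1, ?_⟩⟩
    exact (ht1.2.trans hs2).trans hw.2
  obtain ⟨u0, hu0, E0, hE0, -, hsub0⟩ := claim (h x) hxB.1
  choose! u hu E hE hyE hsub using claim
  have hcomp : IsCompact (E0 ∩ Dᶜ) := hE0.isCompact.inter_right hD.1.compl.1
  obtain ⟨t, ht1⟩ := hcomp.elim_nhds_subcover' (fun y hy => (E y)ᶜ)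
    (fun y hy => (hE y hy.2).1.compl.2.mem_nhds (hyE y hy.2))
  refine ⟨insert u0 ((fun y : (E0 ∩ Dᶜ : Set W) => u y) '' (t : Set (E0 ∩ Dᶜ : Set W))), ?_, ?_, ?_⟩
  · rintro v (rfl | ⟨y, hy, rfl⟩)
    · exact hu0
    · exact hu y y.2.2
  · exact (t.finite_toSet.image _).insert _
  · intro w hw
    by_cases hwE : h w ∈ E0
    · obtain ⟨y, hy, hy2⟩ := mem_iUnion₂.1 (ht1 ⟨hwE, hw.1⟩)
      exact ⟨u y, Or.inr ⟨y, hy, rfl⟩, hsub y y.2.2 ⟨hy2, hw.2⟩⟩
    · exact ⟨u0, Or.inl rfl, hsub0 ⟨hwE, hw.2⟩⟩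

/-- The trace of a set below a level. -/
def E (K : Set X) (r : ℝ) : Set W := {z | ∃ x : ℝ, x ∈ (K : Set ℝ) ∧ h x = z ∧ x ≤ r}

theorem E_mono (K : Set X) {r s : ℝ} (hrs : r ≤ s) : E K r ⊆ E K s :=
  fun _ ⟨x, hx, hz, hr⟩ => ⟨x, hx, hz, hr.trans hrs⟩

theorem E_closed {K : Set X} (hK : IsCompact K) (r : ℝ) : DirSupClosed (E K r) := by
  intro d hd hne _ z hz
  by_contra hzE
  have hlt : ∀ a ∈ d, a < z := fun a ha => lt_of_le_of_ne (hz.1 ha) (by rintro rfl; exact hzE (hd ha))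
  have hne' : Nonempty d := hne.to_subtype
  obtain ⟨a, ha⟩ := hK.elim_directed_cover
    (fun a : d => ({x : ℝ | r < x} ∪ {x : ℝ | h x ∉ Ioc (a : W) z} : Set X))
    (fun a => (isOpen_ray r).union (isOpen_compl (cb_Ioc _ _)))
    (by
      intro x hx
      by_cases hr : r < (x : ℝ)
      · exact mem_iUnion.2 ⟨hne'.some, Or.inl hr⟩
      · have hxz : h x ≠ z := by
          rintro rfl
          exact hzE ⟨x, hx, rfl, not_lt.1 hr⟩
        rcases lt_or_gt_of_ne hxz with hh | hh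
        · obtain ⟨a, ha, haz⟩ := (lt_isLUB_iff hz).1 hh
          exact mem_iUnion.2 ⟨⟨a, ha⟩, Or.inr fun hc => absurd hc.1 (not_lt.2 haz.le)⟩
        · exact mem_iUnion.2 ⟨hne'.some, Or.inr fun hc => absurd hc.2 (not_le.2 hh)⟩)
    (by
      intro a b
      rcases le_total (a : W) b with hab | hab
      · refine ⟨b, ?_, subset_rfl⟩
        rintro x (hx | hx)
        · exact Or.inl hx
        · exact Or.inr fun hc => hx ⟨lt_of_le_of_lt hab hc.1, hc.2⟩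
      · refine ⟨a, subset_rfl, ?_⟩
        rintro x (hx | hx)
        · exact Or.inl hx
        · exact Or.inr fun hc => hx ⟨lt_of_le_of_lt hab hc.1, hc.2⟩)
  obtain ⟨b, hb, hab⟩ := (lt_isLUB_iff hz).1 (hlt a a.2)
  obtain ⟨x, hx, hxb, hxr⟩ := hd hb
  rcases ha hx with hc | hc
  · exact absurd hxr (not_le.2 hc)
  · exact hc ⟨by rw [hxb]; exact hab, by rw [hxb]; exact (hlt b hb).le⟩

theorem exists_min {K : Set X} (hK : IsCompact K) (x₀ : ℝ) (hx₀ : x₀ ∈ (K : Set ℝ)) :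
    ∃ x : ℝ, x ∈ (K : Set ℝ) ∧ h x = h x₀ ∧ ∀ y : ℝ, y ∈ (K : Set ℝ) → h y = h x₀ → x ≤ y := by
  by_contra hcon
  push Not at hcon
  have hne' : Nonempty {x : ℝ // x ∈ (K : Set ℝ) ∧ h x = h x₀} := ⟨⟨x₀, hx₀, rfl⟩⟩
  obtain ⟨q, hq⟩ := hK.elim_directed_cover
    (fun q : {x : ℝ // x ∈ (K : Set ℝ) ∧ h x = h x₀} =>
      ({x : ℝ | (q : ℝ) < x} ∪ {x : ℝ | h x ≠ h x₀} : Set X))
    (fun q => (isOpen_ray _).union (isOpen_ne _))
    (by
      intro x hx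
      by_cases hh : h x = h x₀
      · obtain ⟨y, hy, hy2, hy3⟩ := hcon x hx hh
        exact mem_iUnion.2 ⟨⟨y, hy, hy2⟩, Or.inl hy3⟩
      · exact mem_iUnion.2 ⟨hne'.some, Or.inr hh⟩)
    (by
      intro a b
      rcases le_total (a : ℝ) b with hab | hab
      · refine ⟨a, subset_rfl, ?_⟩
        rintro x (hx | hx)
        · exact Or.inl (lt_of_le_of_lt hab hx)
        · exact Or.inr hx
      · refine ⟨b, ?_, subset_rfl⟩
        rintro x (hx | hx)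
        · exact Or.inl (lt_of_le_of_lt hab hx)
        · exact Or.inr hx)
  rcases hq q.2.1 with hc | hc
  · exact lt_irrefl (α := ℝ) _ hc
  · exact hc q.2.2

theorem bddAbove_of_not_isCofinal {s : Set W} (hs : ¬ IsCofinal s) : ∃ b, ∀ a ∈ s, a < b := by
  rw [not_isCofinal_iff] at hs
  obtain ⟨b, hb⟩ := hs
  exact ⟨b, fun a ha => by simpa using hb a ha⟩

theorem bounded {K : Set X} (hK : IsCompact K) : ∃ β : W, ∀ x : ℝ, x ∈ (K : Set ℝ) → h x < β := by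
  by_contra hunb
  -- lower bound
  obtain ⟨m, hm⟩ : ∃ m : ℕ, ∀ x : ℝ, x ∈ (K : Set ℝ) → -(m : ℝ) < x := by
    obtain ⟨m, hm⟩ := hK.elim_directed_cover
      (fun m : ℕ => ({x : ℝ | -(m : ℝ) < x} : Set X)) (fun m => isOpen_ray _)
      (by
        intro x _
        have key : ∀ y : ℝ, ∃ m : ℕ, -(m : ℝ) < y := by
          intro y
          obtain ⟨m, hm⟩ := exists_nat_gt (-y)
          exact ⟨m, by linarith⟩
        obtain ⟨m, hm⟩ := key x
        exact mem_iUnion.2 ⟨m, hm⟩)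
      (by
        intro a b
        have h1 : -((max a b : ℕ) : ℝ) ≤ -(a : ℝ) := by
          have h2 : (a : ℝ) ≤ ((max a b : ℕ) : ℝ) := by exact_mod_cast le_max_left a b
          linarith
        have h2 : -((max a b : ℕ) : ℝ) ≤ -(b : ℝ) := by
          have h2 : (b : ℝ) ≤ ((max a b : ℕ) : ℝ) := by exact_mod_cast le_max_right a b
          linarith
        exact ⟨max a b, fun x hx => lt_of_le_of_lt h1 hx, fun x hx => lt_of_le_of_lt h2 hx⟩)
    exact ⟨m, fun x hx => hm hx⟩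
  let S : Set ℝ := {r | IsCofinal (E K r)}
  have hSbdd : BddBelow S := by
    refine ⟨-(m : ℝ), fun r hr => ?_⟩
    obtain ⟨z, ⟨x, hx, -, hxr⟩, -⟩ := hr (Classical.arbitrary W)
    exact ((hm x hx).trans_le hxr).le
  have hSne : S.Nonempty := by
    by_contra hS
    have hn : ∀ n : ℕ, ∃ b, ∀ a ∈ E K n, a < b := fun n =>
      bddAbove_of_not_isCofinal fun hc => hS ⟨n, hc⟩
    choose b hb using hn
    obtain ⟨β, hβ⟩ := countable_bdd (range b) (countable_range b)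
    refine hunb ⟨β, fun x hx => ?_⟩
    obtain ⟨n, hn⟩ := exists_nat_ge x
    exact (hb n _ ⟨x, hx, rfl, hn⟩).trans (hβ _ ⟨n, rfl⟩)
  have hup : ∀ r, sInf S < r → IsCofinal (E K r) := by
    intro r hr
    obtain ⟨s, hs, hsr⟩ := exists_lt_of_csInf_lt hSne hr
    exact hs.mono (E_mono K hsr.le)
  have hdown : ∀ r, r < sInf S → ¬ IsCofinal (E K r) := by
    intro r hr hc
    exact absurd (csInf_le hSbdd hc) (not_le.2 hr)
  have hcof : Order.cof W ≠ ℵ₀ := by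
    rw [cof_W]
    exact aleph0_lt_aleph_one.ne'
  have hclub : IsClub (⋂ n : ℕ, E K (sInf S + 1 / ((n : ℝ) + 1))) := by
    refine IsClub.iInter_of_countable hcof fun n => ⟨E_closed hK _, hup _ ?_⟩
    have : (0 : ℝ) < 1 / ((n : ℝ) + 1) := Nat.one_div_pos_of_nat
    linarith
  have hn : ∀ n : ℕ, ∃ b, ∀ a ∈ E K (sInf S - 1 / ((n : ℝ) + 1)), a < b := fun n =>
    bddAbove_of_not_isCofinal (hdown _ (by
      have : (0 : ℝ) < 1 / ((n : ℝ) + 1) := Nat.one_div_pos_of_nat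
      linarith))
  choose b hb using hn
  obtain ⟨γ, hγ⟩ := countable_bdd (insert (h (sInf S)) (range b))
    ((countable_range b).insert _)
  obtain ⟨z, hz, hzγ⟩ := hclub.isCofinal γ
  rw [mem_iInter] at hz
  obtain ⟨x₀, hx₀, hx₀z, -⟩ := hz 0
  obtain ⟨x, hxK, hxz, hmin⟩ := exists_min hK x₀ hx₀
  have h1 : x ≤ sInf S := by
    refine le_of_forall_pos_lt_add fun ε hε => ?_
    obtain ⟨n, hn⟩ := exists_nat_one_div_lt hε
    obtain ⟨y, hy, hyz, hyr⟩ := hz n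
    have := hmin y hy (by rw [hyz, hx₀z])
    linarith
  have h2 : ¬ x < sInf S := by
    intro hlt
    obtain ⟨n, hn⟩ := exists_nat_one_div_lt (sub_pos.2 hlt)
    have h3 : h x < b n := hb n _ ⟨x, hxK, rfl, by linarith⟩
    have h4 : b n < γ := hγ _ (Or.inr ⟨n, rfl⟩)
    rw [hxz, hx₀z] at h3
    exact absurd hzγ (not_le.2 (h3.trans h4))
  have h3 : x = sInf S := le_antisymm h1 (not_lt.1 h2)
  have h4 : h (sInf S) < γ := hγ _ (Or.inl rfl)
  rw [← h3, hxz, hx₀z] at h4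
  exact absurd hzγ (not_le.2 h4)

theorem isIrreducible_univ : IsIrreducible (univ : Set X) := by
  obtain ⟨x, -⟩ := h_spec (Classical.arbitrary W) 0 1 one_pos
  refine ⟨⟨x, mem_univ _⟩, ?_⟩
  rintro U V hU hV ⟨x, -, hx⟩ ⟨y, -, hy⟩
  obtain ⟨D, hD, r, -, hDU⟩ := hU x hx
  obtain ⟨D', hD', r', -, hDV⟩ := hV y hy
  obtain ⟨b, hb⟩ := hD.2
  obtain ⟨b', hb'⟩ := hD'.2
  obtain ⟨c, hc⟩ := exists_gt' (max b b')
  obtain ⟨w, hw1, -, hw2⟩ := h_spec c (max r r') (max r r' + 1) (by linarith)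
  refine ⟨w, mem_univ _, hDU ⟨?_, (le_max_left _ _).trans_lt hw1⟩,
    hDV ⟨?_, (le_max_right _ _).trans_lt hw1⟩⟩
  · rw [hw2]; intro hcD
    exact absurd (hb hcD) (not_le.2 ((le_max_left _ _).trans_lt hc))
  · rw [hw2]; intro hcD
    exact absurd (hb' hcD) (not_le.2 ((le_max_right _ _).trans_lt hc))

theorem not_rudin : ¬ ∃ 𝒦 : Set (Set X), 𝒦.Nonempty ∧
          (∀ K ∈ 𝒦, IsCompact K ∧
            ∀ x : X, (∀ U : Set X, IsOpen U → K ⊆ U → x ∈ U) → x ∈ K) ∧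
          (∀ K₁ ∈ 𝒦, ∀ K₂ ∈ 𝒦, ∃ K₃ ∈ 𝒦, K₃ ⊆ K₁ ∩ K₂) ∧
          (∀ K ∈ 𝒦, ((univ : Set X) ∩ K).Nonempty) ∧
          ∀ B : Set X, IsClosed B → B ⊆ Set.univ → (∀ K ∈ 𝒦, (B ∩ K).Nonempty) → B = Set.univ := by
  rintro ⟨𝒦, ⟨K₀, hK₀⟩, hc, hdir, hne, hmin⟩
  obtain ⟨β, hβ⟩ := bounded (hc K₀ hK₀).1
  have hop := isOpen_compl (cb_Iic β)
  by_cases hall : ∀ K ∈ 𝒦, ((({x : ℝ | h x ∉ Iic β} : Set X)ᶜ) ∩ K).Nonempty
  · have := hmin _ hop.isClosed_compl (subset_univ _) hall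
    obtain ⟨c, hc⟩ := exists_gt' β
    obtain ⟨w, -, -, hw2⟩ := h_spec c 0 1 one_pos
    have hw : (w : X) ∈ (({x : ℝ | h x ∉ Iic β} : Set X)ᶜ) := by rw [this]; trivial
    apply hw
    show h w ∉ Iic β
    rw [hw2]
    exact not_le.2 hc
  · push Not at hall
    obtain ⟨K, hK, hKe⟩ := hall
    obtain ⟨K₃, hK₃, hsub⟩ := hdir K hK K₀ hK₀
    obtain ⟨x, -, hx⟩ := hne K₃ hK₃
    have h1 : x ∉ (({x : ℝ | h x ∉ Iic β} : Set X)ᶜ) ∩ K := by rw [hKe]; exact fun h => h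
    apply h1
    refine ⟨?_, (hsub hx).1⟩
    show ¬ (h x ∉ Iic β)
    rw [not_not]
    exact (hβ x (hsub hx).2).le

end Pool.Agent.Helper18.CoreRudin
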