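import Mathlib

set_option autoImplicit false

open Set Topology

namespace Pool.Agent.Helper18.Rudin

variable {X : Type*} [TopologicalSpace X]

/-- A closed set meeting every member of a family of compact sets contains a minimal such one. -/
theorem exists_minimal (𝒦 : Set (Set X)) (hc : ∀ K ∈ 𝒦, IsCompact K) (C₀ : Set X)
    (hC₀ : IsClosed C₀) (h₀ : ∀ K ∈ 𝒦, (C₀ ∩ K).Nonempty) :
    ∃ C ⊆ C₀, IsClosed C ∧ (∀ K ∈ 𝒦, (C ∩ K).Nonempty) ∧
      ∀ D ⊆ C, IsClosed D → (∀ K ∈ 𝒦, (D ∩ K).Nonempty) → D = C := by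
  obtain ⟨m, hm, hmin⟩ := zorn_superset_nonempty
    {C : Set X | IsClosed C ∧ ∀ K ∈ 𝒦, (C ∩ K).Nonempty} (by
      intro c hc' hchain hne
      refine ⟨⋂₀ c, ⟨isClosed_sInter fun s hs => (hc' hs).1, fun K hK => ?_⟩,
        fun s hs => sInter_subset_of_mem hs⟩
      have : (K ∩ ⋂ s : c, (s : Set X)).Nonempty := by
        refine (hc K hK).inter_iInter_nonempty (fun s : c => (s : Set X))
          (fun s => (hc' s.2).1) fun u => ?_
        have : Nonempty c := hne.to_subtype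
        have hdir : Directed (fun a b : Set X => b ⊆ a) (fun s : c => (s : Set X)) := by
          intro a b
          rcases hchain.total a.2 b.2 with h | h
          · exact ⟨a, subset_rfl, h⟩
          · exact ⟨b, h, subset_rfl⟩
        have : IsTrans (Set X) (fun a b : Set X => b ⊆ a) := ⟨fun a b c h1 h2 => h2.trans h1⟩
        obtain ⟨z, hz⟩ := hdir.finset_le u
        obtain ⟨x, hx1, hx2⟩ := (hc' z.2).2 K hK
        exact ⟨x, hx2, mem_iInter₂.2 fun i hi => hz i hi hx1⟩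
      obtain ⟨x, hx1, hx2⟩ := this
      exact ⟨x, fun s hs => mem_iInter.1 hx2 ⟨s, hs⟩, hx1⟩) C₀ ⟨hC₀, h₀⟩
  exact ⟨m, hm, hmin.prop.1, hmin.prop.2, fun D hD hDc hDK =>
    subset_antisymm hD (hmin.le_of_le ⟨hDc, hDK⟩ hD)⟩

/-- A minimal closed set meeting every member of a filtered family is irreducible. -/
theorem irreducible_of_minimal (𝒦 : Set (Set X)) (hne : 𝒦.Nonempty)
    (hdir : ∀ K₁ ∈ 𝒦, ∀ K₂ ∈ 𝒦, ∃ K₃ ∈ 𝒦, K₃ ⊆ K₁ ∧ K₃ ⊆ K₂)
    (C : Set X) (hC : IsClosed C) (hCK : ∀ K ∈ 𝒦, (C ∩ K).Nonempty)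
    (hmin : ∀ D ⊆ C, IsClosed D → (∀ K ∈ 𝒦, (D ∩ K).Nonempty) → D = C) : IsIrreducible C := by
  constructor
  · obtain ⟨K, hK⟩ := hne
    exact (hCK K hK).mono inter_subset_left
  · rw [isPreirreducible_iff_isClosed_union_isClosed]
    intro z₁ z₂ h₁ h₂ hsub
    by_contra hcon
    push Not at hcon
    have key : ∀ z, IsClosed z → ¬ C ⊆ z → ∃ K ∈ 𝒦, ¬ (C ∩ z ∩ K).Nonempty := by
      intro z hz hCz
      by_contra h
      push Not at h
      have := hmin (C ∩ z) inter_subset_left (hC.inter hz) h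
      exact hCz (inter_eq_left.1 this)
    obtain ⟨K₁, hK₁, h1⟩ := key z₁ h₁ hcon.1
    obtain ⟨K₂, hK₂, h2⟩ := key z₂ h₂ hcon.2
    obtain ⟨K₃, hK₃, h31, h32⟩ := hdir K₁ hK₁ K₂ hK₂
    obtain ⟨x, hxC, hxK⟩ := hCK K₃ hK₃
    rcases hsub hxC with h | h
    · exact h1 ⟨x, ⟨hxC, h⟩, h31 hxK⟩
    · exact h2 ⟨x, ⟨hxC, h⟩, h32 hxK⟩

end Pool.Agent.Helper18.Rudin
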