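import Mathlib
import Pool.Agent.Helper18.Rudin
import Pool.Agent.Helper18.Omega1

set_option autoImplicit false

open Set Topology Pool.Agent.Helper18.Omega1

namespace Pool.Agent.Helper18.JW

/-- Johnstone type poset over the first uncountable ordinal. -/
@[ext] structure J where
  a : W
  b : WithTop W

def le (x y : J) : Prop := (x.a = y.a ∧ x.b ≤ y.b) ∨ (y.b = ⊤ ∧ x.b ≤ (y.a : WithTop W))

instance : PartialOrder J where
  le := le
  le_refl x := Or.inl ⟨rfl, le_rfl⟩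
  le_trans x y z := by
    rintro (⟨h1, h2⟩ | ⟨h1, h2⟩) (⟨h3, h4⟩ | ⟨h3, h4⟩)
    · exact Or.inl ⟨h1.trans h3, h2.trans h4⟩
    · exact Or.inr ⟨h3, h2.trans h4⟩
    · refine Or.inr ⟨?_, h3 ▸ h2⟩
      rw [h1] at h4
      exact top_le_iff.1 h4
    · rw [h1] at h4
      exact absurd (top_le_iff.1 h4) (WithTop.coe_ne_top)
  le_antisymm x y := by
    rintro (⟨h1, h2⟩ | ⟨h1, h2⟩) (⟨h3, h4⟩ | ⟨h3, h4⟩)
    · exact J.ext h1 (le_antisymm h2 h4)
    · rw [h3] at h2
      have h5 := top_le_iff.1 h2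
      exact J.ext h1 (h3.trans h5.symm)
    · rw [h1] at h4
      have h5 := top_le_iff.1 h4
      exact J.ext h3.symm (h5.trans h1.symm)
    · rw [h3] at h2
      exact absurd (top_le_iff.1 h2) (WithTop.coe_ne_top)

theorem le_def {x y : J} : x ≤ y ↔ (x.a = y.a ∧ x.b ≤ y.b) ∨ (y.b = ⊤ ∧ x.b ≤ (y.a : WithTop W)) :=
  Iff.rfl

theorem le_same {a : W} {b b' : WithTop W} (h : b ≤ b') : (⟨a, b⟩ : J) ≤ ⟨a, b'⟩ :=
  Or.inl ⟨rfl, h⟩

/-- limit elements of the extended chain -/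
def IsLim (b : WithTop W) : Prop := (∃ c, c < b) ∧ ∀ c < b, ∃ d, c < d ∧ d < b

theorem isLim_top : IsLim ⊤ := by
  refine ⟨⟨((Classical.arbitrary W : W) : WithTop W), WithTop.coe_lt_top _⟩, fun c hc => ?_⟩
  obtain ⟨w, rfl⟩ := WithTop.ne_top_iff_exists.1 hc.ne
  obtain ⟨v, hv⟩ := exists_gt w
  exact ⟨v, WithTop.coe_lt_coe.2 hv, WithTop.coe_lt_top _⟩

/-- the Scott topology -/
@[instance_reducible] def scottJ : TopologicalSpace J where
  IsOpen U := IsUpperSet U ∧ ∀ (a : W) (b : WithTop W), IsLim b → (⟨a, b⟩ : J) ∈ U →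
    ∃ b' < b, (⟨a, b'⟩ : J) ∈ U
  isOpen_univ := ⟨isUpperSet_univ, fun a b hb _ => by
    obtain ⟨c, hc⟩ := hb.1
    exact ⟨c, hc, mem_univ _⟩⟩
  isOpen_inter := by
    rintro U V ⟨hU, hU'⟩ ⟨hV, hV'⟩
    refine ⟨hU.inter hV, fun a b hb hmem => ?_⟩
    obtain ⟨c, hc, hcU⟩ := hU' a b hb hmem.1
    obtain ⟨d, hd, hdV⟩ := hV' a b hb hmem.2
    exact ⟨max c d, max_lt hc hd, hU (le_same (le_max_left _ _)) hcU,
      hV (le_same (le_max_right _ _)) hdV⟩
  isOpen_sUnion := by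
    intro S hS
    refine ⟨isUpperSet_sUnion fun U hU => (hS U hU).1, fun a b hb hmem => ?_⟩
    obtain ⟨U, hU, hmU⟩ := hmem
    obtain ⟨c, hc, hcU⟩ := (hS U hU).2 a b hb hmU
    exact ⟨c, hc, U, hU, hcU⟩

attribute [local instance] scottJ

theorem isOpen_iff {U : Set J} : IsOpen U ↔ IsUpperSet U ∧ ∀ (a : W) (b : WithTop W), IsLim b →
    (⟨a, b⟩ : J) ∈ U → ∃ b' < b, (⟨a, b'⟩ : J) ∈ U := Iff.rfl

theorem isClosed_iff {C : Set J} : IsClosed C ↔ IsLowerSet C ∧ ∀ (a : W) (b : WithTop W), IsLim b →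
    (∀ b' < b, (⟨a, b'⟩ : J) ∈ C) → (⟨a, b⟩ : J) ∈ C := by
  rw [← isOpen_compl_iff, isOpen_iff]
  constructor
  · rintro ⟨h1, h2⟩
    refine ⟨isUpperSet_compl.1 h1, fun a b hb h => ?_⟩
    by_contra hn
    obtain ⟨b', hb', hm⟩ := h2 a b hb hn
    exact hm (h b' hb')
  · rintro ⟨h1, h2⟩
    refine ⟨isUpperSet_compl.2 h1, fun a b hb h => ?_⟩
    by_contra hn
    push Not at hn
    exact h (h2 a b hb fun b' hb' => by simpa using hn b' hb')

theorem lim_le {b c : WithTop W} (hb : IsLim b) (h : ∀ b' < b, b' ≤ c) : b ≤ c := by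
  by_contra hn
  push Not at hn
  obtain ⟨d, hd, hdb⟩ := hb.2 c hn
  exact absurd (h d hdb) (not_le.2 hd)

theorem isClosed_Iic (x : J) : IsClosed (Iic x) := by
  rw [isClosed_iff]
  refine ⟨isLowerSet_Iic x, fun a b hb h => ?_⟩
  simp only [mem_Iic, le_def] at h ⊢
  by_cases hax : a = x.a
  · by_cases hx : x.b = ⊤
    · exact Or.inl ⟨hax, by rw [hx]; exact le_top⟩
    · refine Or.inl ⟨hax, lim_le hb fun b' hb' => ?_⟩
      rcases h b' hb' with h | h
      · exact h.2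
      · exact absurd h.1 hx
  · obtain ⟨c, hc⟩ := hb.1
    have hx : x.b = ⊤ := by
      rcases h c hc with h | h
      · exact absurd h.1 hax
      · exact h.1
    refine Or.inr ⟨hx, lim_le hb fun b' hb' => ?_⟩
    rcases h b' hb' with h | h
    · exact absurd h.1 hax
    · exact h.2

theorem closure_singleton (x : J) : closure {x} = Iic x := by
  apply subset_antisymm
  · exact closure_minimal (by simp) (isClosed_Iic x)
  · intro y hy
    exact (isClosed_iff.1 isClosed_closure).1 hy (subset_closure (mem_singleton x))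

instance : T0Space J := by
  constructor
  intro x y h
  have h1 := inseparable_iff_closure_eq.1 h
  rw [closure_singleton, closure_singleton] at h1
  exact Iic_injective h1

theorem dcpo (d : Set J) (hne : d.Nonempty) (hd : DirectedOn (· ≤ ·) d) : ∃ x, IsLUB d x := by
  by_cases htop : ∃ x ∈ d, x.b = ⊤
  · obtain ⟨x, hx, hxt⟩ := htop
    refine ⟨x, IsGreatest.isLUB ⟨hx, fun y hy => ?_⟩⟩
    obtain ⟨z, hz, hxz, hyz⟩ := hd x hx y hy
    have : z = x := by
      rcases le_def.1 hxz with h | h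
      · refine J.ext h.1.symm ?_
        rw [hxt] at h
        rw [hxt]
        exact top_le_iff.1 h.2
      · rw [hxt] at h
        exact absurd (top_le_iff.1 h.2) WithTop.coe_ne_top
    rw [← this]
    exact hyz
  · push Not at htop
    obtain ⟨x₀, hx₀⟩ := hne
    have hsame : ∀ x ∈ d, x.a = x₀.a := by
      intro x hx
      obtain ⟨z, hz, hxz, hyz⟩ := hd x hx x₀ hx₀
      rcases le_def.1 hxz with h | h
      · rcases le_def.1 hyz with h' | h'
        · exact h.1.trans h'.1.symm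
        · exact absurd h'.1 (htop z hz)
      · exact absurd h.1 (htop z hz)
    -- the set of strict upper bounds
    by_cases hbd : ∃ s : W, ∀ x ∈ d, x.b ≤ (s : WithTop W)
    · obtain ⟨s, hs, hmin⟩ := WellFounded.has_min (wellFounded_lt (α := W))
        {s : W | ∀ x ∈ d, x.b ≤ (s : WithTop W)} hbd
      refine ⟨⟨x₀.a, s⟩, fun x hx => Or.inl ⟨hsame x hx, hs x hx⟩, fun y hy => ?_⟩
      rw [le_def]
      rcases le_def.1 (hy hx₀) with h | h
      · by_cases hyt : y.b = ⊤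
        · exact Or.inl ⟨h.1, by rw [hyt]; exact le_top⟩
        · obtain ⟨w, hw⟩ := WithTop.ne_top_iff_exists.1 hyt
          refine Or.inl ⟨h.1, ?_⟩
          rw [← hw]
          by_contra hlt
          refine hmin w (fun x hx => ?_) (WithTop.coe_lt_coe.1 (not_le.1 hlt))
          rcases le_def.1 (hy hx) with h' | h'
          · rw [hw]; exact h'.2
          · exact absurd h'.1 hyt
      · by_cases hxy : x₀.a = y.a
        · exact Or.inl ⟨hxy, by rw [h.1]; exact le_top⟩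
        · refine Or.inr ⟨h.1, ?_⟩
          by_contra hlt
          refine hmin y.a (fun x hx => ?_) (WithTop.coe_lt_coe.1 (not_le.1 hlt))
          rcases le_def.1 (hy hx) with h' | h'
          · exact absurd ((hsame x hx).symm.trans h'.1) hxy
          · exact h'.2
    · push Not at hbd
      refine ⟨⟨x₀.a, ⊤⟩, fun x hx => Or.inl ⟨hsame x hx, le_top⟩, fun y hy => ?_⟩
      have hy1 : x₀.a = y.a := by
        by_contra hxy
        obtain ⟨x, hx, hlt⟩ := hbd y.a
        rcases le_def.1 (hy hx) with h' | h'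
        · exact hxy ((hsame x hx).symm.trans h'.1)
        · exact absurd h'.2 (not_le.2 hlt)
      have hy2 : y.b = ⊤ := by
        by_contra hyt
        obtain ⟨w, hw⟩ := WithTop.ne_top_iff_exists.1 hyt
        obtain ⟨x, hx, hlt⟩ := hbd w
        rcases le_def.1 (hy hx) with h' | h'
        · rw [← hw] at h'
          exact absurd h'.2 (not_le.2 hlt)
        · exact hyt h'.1
      exact Or.inl ⟨hy1, by rw [hy2]⟩

/-- every nonempty section of a closed set has a greatest element -/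
theorem section_max (C : Set J) (hC : IsClosed C) (a : W) (b : WithTop W) (hb : (⟨a, b⟩ : J) ∈ C) :
    ∃ m, (⟨a, m⟩ : J) ∈ C ∧ ∀ c, (⟨a, c⟩ : J) ∈ C → c ≤ m := by
  by_contra hcon
  push Not at hcon
  rw [isClosed_iff] at hC
  have hnt : (⟨a, ⊤⟩ : J) ∉ C := by
    intro h
    obtain ⟨c, _, hc⟩ := hcon ⊤ h
    exact not_top_lt hc
  obtain ⟨s, hs, hmin⟩ := WellFounded.has_min (wellFounded_lt (α := WithTop W))
    {s : WithTop W | (⟨a, s⟩ : J) ∉ C} ⟨⊤, hnt⟩
  have hlow : ∀ c, c < s → (⟨a, c⟩ : J) ∈ C := by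
    intro c hc
    by_contra h
    exact hmin c h hc
  have hlt : ∀ c, (⟨a, c⟩ : J) ∈ C → c < s := by
    intro c hc
    by_contra h
    exact hs (hC.1 (le_same (not_lt.1 h)) hc)
  refine hs (hC.2 a s ⟨⟨b, hlt b hb⟩, fun c hc => ?_⟩ hlow)
  obtain ⟨d, hd, hcd⟩ := hcon c (hlow c hc)
  exact ⟨d, hcd, hlt d hd⟩

theorem classify (C : Set J) (hC : IsClosed C) (hirr : IsIrreducible C) :
    C = univ ∨ ∃ x, C = Iic x := by
  have hC' := isClosed_iff.1 hC
  by_cases hunb : ∀ w : W, ∃ z : W, w < z ∧ (⟨z, ⊤⟩ : J) ∈ C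
  · left
    have h1 : ∀ (a : W), (⟨a, ⊤⟩ : J) ∈ C := by
      intro a
      refine hC'.2 a ⊤ isLim_top fun b' hb' => ?_
      obtain ⟨w, rfl⟩ := WithTop.ne_top_iff_exists.1 hb'.ne
      obtain ⟨z, hz, hzC⟩ := hunb w
      exact hC'.1 (Or.inr ⟨rfl, WithTop.coe_le_coe.2 hz.le⟩) hzC
    rw [eq_univ_iff_forall]
    intro x
    exact hC'.1 (show x ≤ ⟨x.a, ⊤⟩ from Or.inl ⟨rfl, le_top⟩) (h1 x.a)
  · right
    push Not at hunb
    obtain ⟨β, hβ⟩ := hunb
    -- it suffices to show that C lies in one column up to a principal ideal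
    have hopen : ∀ x : W, (∃ b, (⟨x, b⟩ : J) ∈ C ∧ ((β : WithTop W) < b ∨
        ∀ z : W, (⟨z, ⊤⟩ : J) ∉ C)) → ∀ p ∈ C, ∀ m, (⟨x, m⟩ : J) ∈ C →
        (∀ c, (⟨x, c⟩ : J) ∈ C → c ≤ m) → p ≤ ⟨x, m⟩ := by
      rintro x ⟨b, hbC, hb⟩ p hp m hm hmax
      by_contra hcon
      rcases hb with hb | hb
      · have hV : IsOpen {q : J | (q.a = x ∧ (β : WithTop W) < q.b) ∨
            (β < q.a ∧ (β : WithTop W) < q.b ∧ q ∉ C)} := by
          rw [isOpen_iff]
          constructor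
          · rintro q r hqr (⟨h1, h2⟩ | ⟨h1, h2, h3⟩)
            · rcases le_def.1 hqr with h | h
              · exact Or.inl ⟨h.1 ▸ h1, h2.trans_le h.2⟩
              · have h4 : β < r.a := WithTop.coe_lt_coe.1 (h2.trans_le h.2)
                refine Or.inr ⟨h4, by rw [h.1]; exact WithTop.coe_lt_top _, ?_⟩
                intro hr
                refine hβ r.a h4 ?_
                rw [← h.1]
                exact hr
            · have h5 : r ∉ C := fun hr => h3 (hC'.1 hqr hr)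
              rcases le_def.1 hqr with h | h
              · exact Or.inr ⟨h.1 ▸ h1, h2.trans_le h.2, h5⟩
              · exact Or.inr ⟨WithTop.coe_lt_coe.1 (h2.trans_le h.2),
                  by rw [h.1]; exact WithTop.coe_lt_top _, h5⟩
          · rintro a c hc (⟨h1, h2⟩ | ⟨h1, h2, h3⟩)
            · obtain ⟨d, hd, hdc⟩ := hc.2 _ h2
              exact ⟨d, hdc, Or.inl ⟨h1, hd⟩⟩
            · obtain ⟨d, hd, hdc⟩ := hc.2 _ h2
              have h4 : ∃ e < c, (⟨a, e⟩ : J) ∉ C := by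
                by_contra hn
                push Not at hn
                exact h3 (hC'.2 a c hc hn)
              obtain ⟨e, hec, heC⟩ := h4
              exact ⟨max d e, max_lt hdc hec, Or.inr ⟨h1, lt_max_of_lt_left hd,
                fun hh => heC (hC'.1 (le_same (le_max_right _ _)) hh)⟩⟩
        obtain ⟨q, hqC, hqV, hqn⟩ := hirr.2 _ _ hV (isClosed_Iic ⟨x, m⟩).isOpen_compl
          ⟨⟨x, b⟩, hbC, Or.inl ⟨rfl, hb⟩⟩ ⟨p, hp, hcon⟩
        rcases hqV with h | h
        · apply hqn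
          refine Or.inl ⟨h.1, hmax q.b ?_⟩
          rw [← h.1]
          exact hqC
        · exact h.2.2 hqC
      · have hV : IsOpen {q : J | q.a = x ∨ q ∉ C} := by
          rw [isOpen_iff]
          constructor
          · rintro q r hqr (h1 | h1)
            · rcases le_def.1 hqr with h | h
              · exact Or.inl (h.1 ▸ h1)
              · refine Or.inr fun hr => hb r.a ?_
                rw [← h.1]
                exact hr
            · exact Or.inr fun hr => h1 (hC'.1 hqr hr)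
          · rintro a c hc (h1 | h1)
            · obtain ⟨d, hd⟩ := hc.1
              exact ⟨d, hd, Or.inl h1⟩
            · have h4 : ∃ e < c, (⟨a, e⟩ : J) ∉ C := by
                by_contra hn
                push Not at hn
                exact h1 (hC'.2 a c hc hn)
              obtain ⟨e, hec, heC⟩ := h4
              exact ⟨e, hec, Or.inr heC⟩
        obtain ⟨q, hqC, hqV, hqn⟩ := hirr.2 _ _ hV (isClosed_Iic ⟨x, m⟩).isOpen_compl
          ⟨⟨x, b⟩, hbC, Or.inl rfl⟩ ⟨p, hp, hcon⟩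
        rcases hqV with h | h
        · apply hqn
          refine Or.inl ⟨h, hmax q.b ?_⟩
          rw [← h]
          exact hqC
        · exact h hqC
    have hfin : ∀ x : W, (∃ b, (⟨x, b⟩ : J) ∈ C ∧ ((β : WithTop W) < b ∨
        ∀ z : W, (⟨z, ⊤⟩ : J) ∉ C)) → ∃ x, C = Iic x := by
      rintro x ⟨b, hbC, hb⟩
      obtain ⟨m, hm, hmax⟩ := section_max C hC x b hbC
      refine ⟨⟨x, m⟩, subset_antisymm (fun p hp => ?_) fun p hp => hC'.1 hp hm⟩
      exact hopen x ⟨b, hbC, hb⟩ p hp m hm hmax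
    by_cases hz : ∀ z : W, (⟨z, ⊤⟩ : J) ∉ C
    · obtain ⟨p, hp⟩ := hirr.1
      exact hfin p.a ⟨p.b, hp, Or.inr hz⟩
    · push Not at hz
      obtain ⟨z, hz⟩ := hz
      exact hfin z ⟨⊤, hz, Or.inl (WithTop.coe_lt_top _)⟩

/-- a compact set meets only finitely many columns below the top level -/
theorem finite_cols (K : Set J) (hK : IsCompact K) :
    {a : W | ∃ b : W, (⟨a, (b : WithTop W)⟩ : J) ∈ K}.Finite := by
  by_contra hinf
  have hinf' : {a : W | ∃ b : W, (⟨a, (b : WithTop W)⟩ : J) ∈ K}.Infinite := hinf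
  let e := hinf'.natEmbedding
  have he : ∀ n, ∃ b : W, (⟨(e n : W), (b : WithTop W)⟩ : J) ∈ K := fun n => (e n).2
  choose b hb using he
  have hinj : ∀ m n, (e m : W) = (e n : W) → m = n := fun m n h => e.injective (Subtype.ext h)
  have hF : ∀ n, IsClosed {p : J | ∃ k, n ≤ k ∧ p.a = (e k : W) ∧ p.b ≤ (b k : WithTop W)} := by
    intro n
    rw [isClosed_iff]
    constructor
    · rintro p q hqp ⟨k, hk, h1, h2⟩
      rcases le_def.1 hqp with h | h
      · exact ⟨k, hk, h.1.trans h1, h.2.trans h2⟩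
      · rw [h.1] at h2
        exact absurd (top_le_iff.1 h2) WithTop.coe_ne_top
    · intro a c hc h
      obtain ⟨d, hd⟩ := hc.1
      obtain ⟨k, hk, h1, h2⟩ := h d hd
      refine ⟨k, hk, h1, lim_le hc fun b' hb' => ?_⟩
      obtain ⟨k', hk', h1', h2'⟩ := h b' hb'
      have : k' = k := hinj _ _ (h1'.symm.trans h1)
      rw [this] at h2'
      exact h2'
  obtain ⟨n, hn⟩ := hK.elim_directed_cover
    (fun n => {p : J | ∃ k, n ≤ k ∧ p.a = (e k : W) ∧ p.b ≤ (b k : WithTop W)}ᶜ)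
    (fun n => (hF n).isOpen_compl)
    (by
      intro p _
      rw [mem_iUnion]
      by_cases h : ∃ k, p.a = (e k : W)
      · obtain ⟨k, hk⟩ := h
        refine ⟨k + 1, ?_⟩
        rintro ⟨k', hk', h1, _⟩
        have : k' = k := hinj _ _ (h1.symm.trans hk)
        omega
      · refine ⟨0, ?_⟩
        rintro ⟨k', _, h1, _⟩
        exact h ⟨k', h1⟩)
    (by
      refine directed_of_isDirected_le ?_
      intro m n hmn
      refine compl_subset_compl.2 ?_
      rintro p ⟨k, hk, h⟩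
      exact ⟨k, hmn.trans hk, h⟩)
  exact hn (hb n) ⟨n, le_rfl, rfl, le_rfl⟩

/-- a compact set of maximal elements is finite -/
theorem finite_tops (K : Set J) (hK : IsCompact K) (hKt : ∀ p ∈ K, p.b = ⊤) :
    {a : W | (⟨a, ⊤⟩ : J) ∈ K}.Finite := by
  by_contra hinf
  have hinf' : {a : W | (⟨a, ⊤⟩ : J) ∈ K}.Infinite := hinf
  let e := hinf'.natEmbedding
  have hinj : ∀ m n, (e m : W) = (e n : W) → m = n := fun m n h => e.injective (Subtype.ext h)
  obtain ⟨α, hα⟩ := countable_bdd (range fun n => (e n : W)) (countable_range _)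
  have hα' : ∀ n, ((e n : W) : WithTop W) ≤ α := fun n => WithTop.coe_le_coe.2 (hα _ ⟨n, rfl⟩).le
  have hF : ∀ n, IsClosed {p : J | (∃ k, n ≤ k ∧ p.a = (e k : W)) ∨ p.b ≤ (α : WithTop W)} := by
    intro n
    rw [isClosed_iff]
    constructor
    · rintro p q hqp (⟨k, hk, h1⟩ | h1)
      · rcases le_def.1 hqp with h | h
        · exact Or.inl ⟨k, hk, h.1.trans h1⟩
        · refine Or.inr (h.2.trans ?_)
          rw [h1]
          exact hα' k
      · rcases le_def.1 hqp with h | h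
        · exact Or.inr (h.2.trans h1)
        · rw [h.1] at h1
          exact absurd (top_le_iff.1 h1) WithTop.coe_ne_top
    · intro a c hc h
      by_cases hk : ∃ k, n ≤ k ∧ a = (e k : W)
      · exact Or.inl hk
      · refine Or.inr (lim_le hc fun b' hb' => ?_)
        rcases h b' hb' with h | h
        · exact absurd h hk
        · exact h
  obtain ⟨n, hn⟩ := hK.elim_directed_cover
    (fun n => {p : J | (∃ k, n ≤ k ∧ p.a = (e k : W)) ∨ p.b ≤ (α : WithTop W)}ᶜ)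
    (fun n => (hF n).isOpen_compl)
    (by
      intro p hp
      rw [mem_iUnion]
      have hpt : ¬ p.b ≤ (α : WithTop W) := by
        rw [hKt p hp]
        exact fun h => absurd (top_le_iff.1 h) WithTop.coe_ne_top
      by_cases h : ∃ k, p.a = (e k : W)
      · obtain ⟨k, hk⟩ := h
        refine ⟨k + 1, ?_⟩
        rintro (⟨k', hk', h1⟩ | h1)
        · have : k' = k := hinj _ _ (h1.symm.trans hk)
          omega
        · exact hpt h1
      · refine ⟨0, ?_⟩
        rintro (⟨k', _, h1⟩ | h1)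
        · exact h ⟨k', h1⟩
        · exact hpt h1)
    (by
      refine directed_of_isDirected_le ?_
      intro m n hmn
      refine compl_subset_compl.2 ?_
      rintro p (⟨k, hk, h⟩ | h)
      · exact Or.inl ⟨k, hmn.trans hk, h⟩
      · exact Or.inr h)
  exact hn (show (⟨(e n : W), ⊤⟩ : J) ∈ K from (e n).2) (Or.inl ⟨n, le_rfl, rfl⟩)

theorem wf (𝒦 : Set (Set J)) (hne : 𝒦.Nonempty) (hdir : DirectedOn (· ⊇ ·) 𝒦)
    (h𝒦 : ∀ K ∈ 𝒦, IsCompact K ∧ IsUpperSet K) (U : Set J) (hU : IsOpen U) (hsub : ⋂₀ 𝒦 ⊆ U) :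
    ∃ K ∈ 𝒦, K ⊆ U := by
  by_contra hcon
  push Not at hcon
  obtain ⟨C, hCU, hC, hCK, hmin⟩ := Rudin.exists_minimal 𝒦 (fun K hK => (h𝒦 K hK).1) Uᶜ
    hU.isClosed_compl (fun K hK => by
      obtain ⟨x, hx, hxU⟩ := Set.not_subset.1 (hcon K hK)
      exact ⟨x, hxU, hx⟩)
  have hdir' : ∀ K₁ ∈ 𝒦, ∀ K₂ ∈ 𝒦, ∃ K₃ ∈ 𝒦, K₃ ⊆ K₁ ∧ K₃ ⊆ K₂ := by
    intro K₁ h₁ K₂ h₂
    obtain ⟨K₃, h₃, h31, h32⟩ := hdir K₁ h₁ K₂ h₂
    exact ⟨K₃, h₃, h31, h32⟩
  have hirr := Rudin.irreducible_of_minimal 𝒦 hne hdir' C hC hCK hmin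
  rcases classify C hC hirr with rfl | ⟨x, rfl⟩
  · obtain ⟨K₀, hK₀⟩ := hne
    -- a proper closed set misses some member
    have hmiss : ∀ D : Set J, IsClosed D → D ≠ univ → ∃ K ∈ 𝒦, ∀ p ∈ K, p ∉ D := by
      intro D hD hDu
      by_contra h
      push Not at h
      refine hDu (hmin D (subset_univ _) hD fun K hK => ?_)
      obtain ⟨p, hp, hpD⟩ := h K hK
      exact ⟨p, hpD, hp⟩
    have hprop : ∀ R : Set W, R.Finite → IsClosed (⋃ a ∈ R, Iic (⟨a, ⊤⟩ : J)) ∧
        (⋃ a ∈ R, Iic (⟨a, ⊤⟩ : J)) ≠ univ := by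
      intro R hR
      refine ⟨hR.isClosed_biUnion fun a _ => isClosed_Iic _, fun h => ?_⟩
      obtain ⟨z, hz⟩ := countable_bdd R hR.countable
      have : (⟨z, ⊤⟩ : J) ∈ ⋃ a ∈ R, Iic (⟨a, ⊤⟩ : J) := by rw [h]; exact mem_univ _
      obtain ⟨a, ha, hza⟩ := mem_iUnion₂.1 this
      rcases le_def.1 (show (⟨z, ⊤⟩ : J) ≤ ⟨a, ⊤⟩ from hza) with h | h
      · have h1 := hz a ha
        have h2 : z = a := h.1
        exact absurd h1 (by rw [h2]; exact lt_irrefl _)
      · exact absurd (top_le_iff.1 h.2) WithTop.coe_ne_top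
    have hR := finite_cols K₀ (h𝒦 K₀ hK₀).1
    obtain ⟨K₁, hK₁, hK₁D⟩ := hmiss _ (hprop _ hR).1 (hprop _ hR).2
    obtain ⟨K₂, hK₂, h20, h21⟩ := hdir' K₀ hK₀ K₁ hK₁
    have htops : ∀ p ∈ K₂, p.b = ⊤ := by
      intro p hp
      by_contra hpb
      obtain ⟨w, hw⟩ := WithTop.ne_top_iff_exists.1 hpb
      refine hK₁D p (h21 hp) (mem_iUnion₂.2 ⟨p.a, ⟨w, ?_⟩, Or.inl ⟨rfl, le_top⟩⟩)
      rw [hw]
      exact h20 hp
    have hT := finite_tops K₂ (h𝒦 K₂ hK₂).1 htops
    obtain ⟨K₃, hK₃, hK₃D⟩ := hmiss _ (hprop _ hT).1 (hprop _ hT).2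
    obtain ⟨K₄, hK₄, h42, h43⟩ := hdir' K₂ hK₂ K₃ hK₃
    obtain ⟨p, _, hp⟩ := hCK K₄ hK₄
    have hpt := htops p (h42 hp)
    refine hK₃D p (h43 hp) (mem_iUnion₂.2 ⟨p.a, ?_, Or.inl ⟨rfl, le_top⟩⟩)
    change (⟨p.a, ⊤⟩ : J) ∈ K₂
    rw [← hpt]
    exact h42 hp
  · have hx : x ∈ ⋂₀ 𝒦 := by
      intro K hK
      obtain ⟨y, hyx, hyK⟩ := hCK K hK
      exact (h𝒦 K hK).2 hyx hyK
    exact hCU (mem_Iic.2 le_rfl) (hsub hx)

end Pool.Agent.Helper18.JW
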