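import Mathlib

set_option autoImplicit false

open Set Filter Topology

namespace Pool.Agent.Helper18.Vietoris

abbrev I0 := ℕ × ℕ
abbrev K0 := I0 → Bool

def good (S : Set I0) : Prop :=
  (∀ p ∈ S, ∀ q ∈ S, p.1 = q.1 → p = q) ∨ (∀ p ∈ S, ∀ q ∈ S, p.1 = q.1)

def A (y : K0) : Set I0 := {j | y j = true ∧ good {i | y i = true}}

theorem good_A (y : K0) : good (A y) := by
  by_cases h : good {i | y i = true}
  · rcases h with h | h
    · left; intro p hp q hq; exact h p hp.1 q hq.1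
    · right; intro p hp q hq; exact h p hp.1 q hq.1
  · left; intro p hp; exact absurd hp.2 h

theorem exists_A (S : Set I0) (hS : good S) : ∃ y, A y = S := by
  classical
  refine ⟨fun i => decide (i ∈ S), ?_⟩
  ext j
  simp [A, hS]

theorem tall (J : Set I0) (hJ : J.Infinite) : ∃ y, (A y ∩ J).Infinite := by
  by_cases h : ∃ a, (J ∩ {p | p.1 = a}).Infinite
  · obtain ⟨a, ha⟩ := h
    obtain ⟨y, hy⟩ := exists_A (J ∩ {p | p.1 = a}) (by
      right; intro p hp q hq; exact hp.2.trans hq.2.symm)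
    refine ⟨y, ?_⟩
    rw [hy]
    exact ha.mono (fun p hp => ⟨hp, hp.1⟩)
  · push Not at h
    have h1 : (Prod.fst '' J).Infinite := by
      intro hfin
      apply hJ
      have : J ⊆ ⋃ a ∈ Prod.fst '' J, (J ∩ {p | p.1 = a}) := by
        intro p hp
        simp only [mem_iUnion]
        exact ⟨p.1, ⟨p, hp, rfl⟩, hp, rfl⟩
      refine Set.Finite.subset (hfin.biUnion fun a _ => ?_) this
      exact h a
    obtain ⟨S, hSJ, hS⟩ := Set.exists_subset_bijOn J Prod.fst
    obtain ⟨y, hy⟩ := exists_A S (by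
      left; intro p hp q hq hpq; exact hS.injOn hp hq hpq)
    refine ⟨y, ?_⟩
    rw [hy]
    have : S.Infinite := by
      intro hfin
      apply h1
      rw [← hS.image_eq]
      exact hfin.image _
    exact this.mono (fun p hp => ⟨hp, hSJ hp⟩)

theorem notcover (F : Finset K0) (T : Finset I0) : ∃ j, j ∉ T ∧ ∀ y ∈ F, j ∉ A y := by
  classical
  have hbad : ({a : ℕ | ∃ y ∈ F, (∀ p ∈ A y, ∀ q ∈ A y, p.1 = q.1) ∧ ∃ p ∈ A y, p.1 = a} ∪
      (T.image Prod.fst : Finset ℕ)).Finite := by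
    refine Set.Finite.union ?_ (Finset.finite_toSet _)
    have : {a : ℕ | ∃ y ∈ F, (∀ p ∈ A y, ∀ q ∈ A y, p.1 = q.1) ∧ ∃ p ∈ A y, p.1 = a} ⊆
        ⋃ y ∈ (F : Set K0), {a : ℕ | (∀ p ∈ A y, ∀ q ∈ A y, p.1 = q.1) ∧ ∃ p ∈ A y, p.1 = a} := by
      rintro a ⟨y, hy, h⟩
      simp only [mem_iUnion]
      exact ⟨y, hy, h⟩
    refine Set.Finite.subset (F.finite_toSet.biUnion fun y _ => ?_) this
    apply Set.Subsingleton.finite
    rintro a ⟨h1, p, hp, rfl⟩ b ⟨_, q, hq, rfl⟩
    exact h1 p hp q hq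
  obtain ⟨a, ha⟩ := hbad.exists_notMem
  have hb : ({b : ℕ | ∃ y ∈ F, (∀ p ∈ A y, ∀ q ∈ A y, p.1 = q.1 → p = q) ∧ (a, b) ∈ A y}).Finite := by
    have : {b : ℕ | ∃ y ∈ F, (∀ p ∈ A y, ∀ q ∈ A y, p.1 = q.1 → p = q) ∧ (a, b) ∈ A y} ⊆
        ⋃ y ∈ (F : Set K0), {b : ℕ | (∀ p ∈ A y, ∀ q ∈ A y, p.1 = q.1 → p = q) ∧ (a, b) ∈ A y} := by
      rintro b ⟨y, hy, h⟩
      simp only [mem_iUnion]
      exact ⟨y, hy, h⟩
    refine Set.Finite.subset (F.finite_toSet.biUnion fun y _ => ?_) this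
    apply Set.Subsingleton.finite
    rintro b ⟨h1, hb⟩ c ⟨_, hc⟩
    exact congrArg Prod.snd (h1 _ hb _ hc rfl)
  obtain ⟨b, hb⟩ := hb.exists_notMem
  refine ⟨(a, b), ?_, ?_⟩
  · intro hT
    apply ha
    right
    simp only [Finset.coe_image, Set.mem_image]
    exact ⟨(a, b), hT, rfl⟩
  · intro y hy hmem
    rcases good_A y with h | h
    · exact hb ⟨y, hy, h, hmem⟩
    · exact ha (Or.inl ⟨y, hy, h, (a, b), hmem, rfl⟩)

/-- The underlying set of the example: a Cantor cube at infinity and countably many copies. -/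
def X0 : Type := K0 × Option I0

instance : TopologicalSpace X0 where
  IsOpen U := (∀ j : I0, IsOpen {z : K0 | ((z, some j) : K0 × Option I0) ∈ U}) ∧
    ∀ y : K0, ((y, none) : K0 × Option I0) ∈ U → ∃ V : Set K0, IsOpen V ∧ y ∈ V ∧
      ∃ T : Finset I0, ∀ z ∈ V, ((z, none) : K0 × Option I0) ∈ U ∧
        ∀ j, j ∉ T → ¬ (z = y ∧ j ∈ A y) → ((z, some j) : K0 × Option I0) ∈ U
  isOpen_univ := by
    refine ⟨fun j => ?_, fun y _ => ⟨univ, isOpen_univ, mem_univ _, ∅, fun z _ => ⟨mem_univ _, fun _ _ _ => mem_univ _⟩⟩⟩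
    have : {z : K0 | ((z, some j) : K0 × Option I0) ∈ (univ : Set (K0 × Option I0))} = univ := by
      ext; simp
    exact this ▸ isOpen_univ
  isOpen_inter := by
    classical
    rintro U U' ⟨h1, h2⟩ ⟨h1', h2'⟩
    refine ⟨fun j => (h1 j).inter (h1' j), fun y hy => ?_⟩
    obtain ⟨V, hV, hyV, T, hT⟩ := h2 y hy.1
    obtain ⟨V', hV', hyV', T', hT'⟩ := h2' y hy.2
    refine ⟨V ∩ V', hV.inter hV', ⟨hyV, hyV'⟩, T ∪ T', fun z hz => ?_⟩
    refine ⟨⟨(hT z hz.1).1, (hT' z hz.2).1⟩, fun j hj hne => ?_⟩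
    simp only [Finset.mem_union, not_or] at hj
    exact ⟨(hT z hz.1).2 j hj.1 hne, (hT' z hz.2).2 j hj.2 hne⟩
  isOpen_sUnion := by
    intro S hS
    refine ⟨fun j => ?_, fun y hy => ?_⟩
    · have : {z : K0 | ((z, some j) : K0 × Option I0) ∈ ⋃₀ S} =
          ⋃ U ∈ S, {z : K0 | ((z, some j) : K0 × Option I0) ∈ U} := by
        ext z
        constructor
        · rintro ⟨U, hU, hz⟩
          exact mem_iUnion₂.2 ⟨U, hU, hz⟩
        · intro hz
          obtain ⟨U, hU, hz⟩ := mem_iUnion₂.1 hz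
          exact ⟨U, hU, hz⟩
      rw [this]
      exact isOpen_biUnion fun U hU => (hS U hU).1 j
    · obtain ⟨U, hU, hyU⟩ := hy
      obtain ⟨V, hV, hyV, T, hT⟩ := (hS U hU).2 y hyU
      exact ⟨V, hV, hyV, T, fun z hz => ⟨⟨U, hU, (hT z hz).1⟩, fun j hj hne => ⟨U, hU, (hT z hz).2 j hj hne⟩⟩⟩

def pt (z : K0) (o : Option I0) : X0 := (z, o)
def π (p : X0) : K0 := p.1
def ht (p : X0) : Option I0 := p.2

@[simp] theorem π_pt (z : K0) (o : Option I0) : π (pt z o) = z := rfl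
@[simp] theorem ht_pt (z : K0) (o : Option I0) : ht (pt z o) = o := rfl
@[simp] theorem pt_eta (p : X0) : pt (π p) (ht p) = p := rfl
theorem pt_inj {z z' : K0} {o o' : Option I0} (h : pt z o = pt z' o') : z = z' ∧ o = o' :=
  ⟨congrArg π h, congrArg ht h⟩
theorem ext0 {p q : X0} (h1 : π p = π q) (h2 : ht p = ht q) : p = q := Prod.ext h1 h2

theorem isOpen_iff {U : Set X0} : IsOpen U ↔ (∀ j : I0, IsOpen {z : K0 | pt z (some j) ∈ U}) ∧
    ∀ y : K0, pt y none ∈ U → ∃ V : Set K0, IsOpen V ∧ y ∈ V ∧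
      ∃ T : Finset I0, ∀ z ∈ V, pt z none ∈ U ∧
        ∀ j, j ∉ T → ¬ (z = y ∧ j ∈ A y) → pt z (some j) ∈ U := Iff.rfl

/-- basic open set in the layer `j`. -/
theorem isOpen_layer (j : I0) (V : Set K0) (hV : IsOpen V) :
    IsOpen {p : X0 | ht p = some j ∧ π p ∈ V} := by
  rw [isOpen_iff]
  refine ⟨fun j' => ?_, fun y hy => ?_⟩
  · by_cases h : j' = j
    · subst h
      simpa using hV
    · simp [h]
  · simp at hy

theorem mem_W (y : K0) (V : Set K0) (T : Finset I0) (z : K0) (j : I0) :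
    pt z (some j) ∈ {p : X0 | π p ∈ V ∧ ∀ j, ht p = some j → j ∉ T ∧ ¬ (π p = y ∧ j ∈ A y)} ↔
      z ∈ V ∧ (j ∉ T ∧ ¬ (z = y ∧ j ∈ A y)) := by
  constructor
  · rintro ⟨h1, h2⟩
    exact ⟨h1, h2 j rfl⟩
  · rintro ⟨h1, h2⟩
    refine ⟨h1, fun j' hj' => ?_⟩
    have : j = j' := Option.some.inj hj'
    subst this
    exact h2

theorem isOpen_W (y : K0) (V : Set K0) (hV : IsOpen V) (T : Finset I0) :
    IsOpen {p : X0 | π p ∈ V ∧ ∀ j, ht p = some j → j ∉ T ∧ ¬ (π p = y ∧ j ∈ A y)} := by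
  rw [isOpen_iff]
  refine ⟨fun j => ?_, fun y' hy' => ?_⟩
  · simp only [mem_W]
    by_cases hT : j ∈ T
    · simp [hT]
    · by_cases hA : j ∈ A y
      · simp only [hT, hA, not_false_eq_true, and_true, true_and]
        exact hV.inter isOpen_compl_singleton
      · simp only [hT, hA, not_false_eq_true, and_true, and_false]
        exact hV
  · have hyV : y' ∈ V := hy'.1
    by_cases h : y' = y
    · subst h
      refine ⟨V, hV, hyV, T, fun z hz => ⟨⟨hz, by simp⟩, fun j hj hne => ⟨hz, ?_⟩⟩⟩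
      intro j' hj'
      simp only [ht_pt, Option.some.injEq] at hj'
      subst hj'
      exact ⟨hj, hne⟩
    · refine ⟨V ∩ {y}ᶜ, hV.inter isOpen_compl_singleton, ⟨hyV, h⟩, T,
        fun z hz => ⟨⟨hz.1, by simp⟩, fun j hj hne => ⟨hz.1, ?_⟩⟩⟩
      intro j' hj'
      simp only [ht_pt, Option.some.injEq] at hj'
      subst hj'
      exact ⟨hj, fun hh => hz.2 hh.1⟩

theorem continuous_π : Continuous π := by
  rw [continuous_def]
  intro V hV
  rw [isOpen_iff]
  refine ⟨fun j => hV, fun y hy => ⟨V, hV, hy, ∅, fun z hz => ⟨hz, fun _ _ _ => hz⟩⟩⟩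

instance : T2Space X0 := by
  rw [t2Space_iff]
  intro p q hpq
  by_cases h : π p = π q
  · have h2 : ht p ≠ ht q := fun h2 => hpq (ext0 h h2)
    -- separate by layers
    have key : ∀ (p q : X0) (j : I0), ht p = some j → ht q ≠ some j →
        ∃ u v : Set X0, IsOpen u ∧ IsOpen v ∧ p ∈ u ∧ q ∈ v ∧ Disjoint u v := by
      intro p q j hj hq
      refine ⟨{p : X0 | ht p = some j ∧ π p ∈ univ}, {p : X0 | ht p ≠ some j},
        isOpen_layer j univ isOpen_univ, ?_, ⟨hj, mem_univ _⟩, hq, ?_⟩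
      · rw [isOpen_iff]
        refine ⟨fun j' => ?_, fun y _ => ⟨univ, isOpen_univ, mem_univ _, {j}, fun z _ => ⟨by simp, fun j' hj' _ => ?_⟩⟩⟩
        · by_cases hh : j' = j
          · simp [hh]
          · simp [hh]
        · simpa using hj'
      · rw [Set.disjoint_left]
        intro r hr hr'
        exact hr' hr.1
    cases hp : ht p with
    | some j =>
      exact key p q j hp (fun hq => h2 (hp.trans hq.symm))
    | none =>
      cases hq : ht q with
      | none => exact absurd (hp.trans hq.symm) h2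
      | some j =>
        obtain ⟨u, v, hu, hv, h1, h2, h3⟩ := key q p j hq (by rw [hp]; simp)
        exact ⟨v, u, hv, hu, h2, h1, h3.symm⟩
  · obtain ⟨u, v, hu, hv, h1, h2, h3⟩ := t2_separation h
    exact ⟨π ⁻¹' u, π ⁻¹' v, hu.preimage continuous_π, hv.preimage continuous_π, h1, h2,
      h3.preimage π⟩

theorem continuous_inf : Continuous (fun z : K0 => pt z none) := by
  rw [continuous_def]
  intro U hU
  rw [isOpen_iff] at hU
  rw [isOpen_iff_forall_mem_open]
  intro y hy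
  obtain ⟨V, hV, hyV, T, hT⟩ := hU.2 y hy
  exact ⟨V, fun z hz => (hT z hz).1, hV, hyV⟩

theorem continuous_layer (j : I0) : Continuous (fun z : K0 => pt z (some j)) := by
  rw [continuous_def]
  intro U hU
  rw [isOpen_iff] at hU
  exact hU.1 j

def Kinf : Set X0 := range fun z : K0 => pt z none
def B (j : I0) : Set X0 := range fun z : K0 => pt z (some j)

theorem isCompact_Kinf : IsCompact Kinf := isCompact_range continuous_inf
theorem isCompact_B (j : I0) : IsCompact (B j) := isCompact_range (continuous_layer j)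

theorem finite_meet (L : Set X0) (hL : IsCompact L) (y : K0) :
    {j | j ∈ A y ∧ pt y (some j) ∈ L}.Finite := by
  classical
  have hcov := hL.elim_finite_subcover
    (fun o : Option I0 => Option.rec {p : X0 | π p ∈ univ ∧ ∀ j, ht p = some j → j ∉ (∅ : Finset I0) ∧ ¬ (π p = y ∧ j ∈ A y)}
      (fun j => {p : X0 | ht p = some j ∧ π p ∈ univ}) o)
    (by
      intro o
      cases o with
      | none => exact isOpen_W y univ isOpen_univ ∅
      | some j => exact isOpen_layer j univ isOpen_univ)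
    (by
      intro p _
      rw [mem_iUnion]
      cases hp : ht p with
      | none => exact ⟨none, mem_univ _, fun j hj => by rw [hp] at hj; cases hj⟩
      | some j => exact ⟨some j, hp, mem_univ _⟩)
  obtain ⟨t, ht'⟩ := hcov
  have : {j | j ∈ A y ∧ pt y (some j) ∈ L} ⊆ {j | some j ∈ t} := by
    rintro j ⟨hj, hjL⟩
    have := ht' hjL
    rw [mem_iUnion₂] at this
    obtain ⟨o, ho, hmem⟩ := this
    cases o with
    | none =>
      exact absurd ⟨rfl, hj⟩ (hmem.2 j rfl).2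
    | some j' =>
      have : some j = some j' := hmem.1
      change some j ∈ t
      rw [this]
      exact ho
  refine Set.Finite.subset ?_ this
  exact Set.Finite.preimage (fun a _ b _ h => Option.some.inj h) t.finite_toSet

theorem finite_B (L : Set X0) (hL : IsCompact L) : {j | B j ⊆ L}.Finite := by
  by_contra h
  obtain ⟨y, hy⟩ := tall _ h
  apply hy
  refine (finite_meet L hL y).subset ?_
  rintro j ⟨hj, hjL⟩
  exact ⟨hj, hjL ⟨y, rfl⟩⟩

instance : FirstCountableTopology X0 := by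
  constructor
  intro p
  cases hp : ht p with
  | some j =>
    have : p = pt (π p) (some j) := by rw [← hp]; rfl
    rw [this]
    generalize π p = y
    have h1 : 𝓝 (pt y (some j)) = map (fun z : K0 => pt z (some j)) (𝓝 y) := by
      apply le_antisymm
      · intro s hs
        rw [mem_map] at hs
        obtain ⟨V, hVs, hV, hyV⟩ := mem_nhds_iff.1 hs
        refine mem_nhds_iff.2 ⟨{p : X0 | ht p = some j ∧ π p ∈ V}, ?_, isOpen_layer j V hV, rfl, hyV⟩
        rintro q ⟨hq, hqV⟩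
        have : q = pt (π q) (some j) := by rw [← hq]; rfl
        rw [this]
        exact hVs hqV
      · exact (continuous_layer j).tendsto y
    rw [h1]
    infer_instance
  | none =>
    have : p = pt (π p) none := by rw [← hp]; rfl
    rw [this]
    generalize π p = y
    have h1 : 𝓝 (pt y none) = (comap π (𝓝 y)) ⊓
        ((⨅ T : Finset I0, 𝓟 {p : X0 | ∀ j, ht p = some j → j ∉ T}) ⊓
          𝓟 {p : X0 | ∀ j, ht p = some j → ¬ (π p = y ∧ j ∈ A y)}) := by
      apply le_antisymm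
      · refine le_inf (continuous_π.tendsto' _ _ rfl).le_comap (le_inf (le_iInf fun T => ?_) ?_)
        · rw [le_principal_iff]
          exact mem_nhds_iff.2 ⟨_, fun q hq j hj => (hq.2 j hj).1, isOpen_W y univ isOpen_univ T,
            mem_univ _, fun j hj => by simp at hj⟩
        · rw [le_principal_iff]
          exact mem_nhds_iff.2 ⟨_, fun q hq j hj => (hq.2 j hj).2, isOpen_W y univ isOpen_univ ∅,
            mem_univ _, fun j hj => by simp at hj⟩
      · intro s hs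
        obtain ⟨U, hUs, hU, hyU⟩ := mem_nhds_iff.1 hs
        rw [isOpen_iff] at hU
        obtain ⟨V, hV, hyV, T, hT⟩ := hU.2 y hyU
        have h2 : (π ⁻¹' V) ∩ ({p : X0 | ∀ j, ht p = some j → j ∉ T} ∩
            {p : X0 | ∀ j, ht p = some j → ¬ (π p = y ∧ j ∈ A y)}) ∈ (comap π (𝓝 y)) ⊓
        ((⨅ T : Finset I0, 𝓟 {p : X0 | ∀ j, ht p = some j → j ∉ T}) ⊓
          𝓟 {p : X0 | ∀ j, ht p = some j → ¬ (π p = y ∧ j ∈ A y)}) := by
          refine inter_mem_inf (preimage_mem_comap (hV.mem_nhds hyV)) (inter_mem_inf ?_ (mem_principal_self _))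
          exact mem_iInf_of_mem T (mem_principal_self _)
        refine mem_of_superset h2 ?_
        rintro q ⟨hqV, hqT, hqA⟩
        apply hUs
        cases hq : ht q with
        | none =>
          have : q = pt (π q) none := by rw [← hq]; rfl
          rw [this]
          exact (hT _ hqV).1
        | some j =>
          have : q = pt (π q) (some j) := by rw [← hq]; rfl
          rw [this]
          exact (hT _ hqV).2 j (hqT j hq) (hqA j hq)
    rw [h1]
    infer_instance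

theorem saturated (K : Set X0) : ⋂₀ {U : Set X0 | IsOpen U ∧ K ⊆ U} ⊆ K := by
  intro x hx
  by_contra h
  exact hx {x}ᶜ ⟨isOpen_compl_singleton, fun y hy hyx => h (hyx ▸ hy)⟩ rfl

theorem wf (𝒦 : Set (Set X0)) (hne : 𝒦.Nonempty)
    (h𝒦 : ∀ K ∈ 𝒦, IsCompact K ∧ ⋂₀ {U : Set X0 | IsOpen U ∧ K ⊆ U} ⊆ K)
    (hdir : DirectedOn (fun A B : Set X0 => B ⊆ A) 𝒦) (U : Set X0) (hU : IsOpen U)
    (hsub : ⋂₀ 𝒦 ⊆ U) : ∃ K ∈ 𝒦, K ⊆ U := by
  haveI : Nonempty 𝒦 := hne.to_subtype
  obtain ⟨i, hi⟩ := exists_subset_nhds_of_isCompact' (V := fun K : 𝒦 => (K : Set X0))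
    (by
      intro a b
      obtain ⟨c, hc, hac, hbc⟩ := hdir a.1 a.2 b.1 b.2
      exact ⟨⟨c, hc⟩, hac, hbc⟩)
    (fun i => (h𝒦 i.1 i.2).1) (fun i => (h𝒦 i.1 i.2).1.isClosed) (U := U)
    (fun x hx => hU.mem_nhds (hsub (by rw [sInter_eq_iInter]; exact hx)))
  exact ⟨i.1, i.2, hi⟩

/-- Open sets of a topology generated by boxes contain a box around each of their points. -/
theorem box_of_open {P : Type} {Y : Type} (c : P → Set Y) (τ : TopologicalSpace Y)
    (𝒮 : Set P) (h : @IsOpen P (TopologicalSpace.generateFrom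
      {𝒱 : Set P | ∃ U : Set Y, IsOpen U ∧ 𝒱 = {K : P | c K ⊆ U}}) 𝒮) :
    ∀ K ∈ 𝒮, ∃ U : Set Y, IsOpen U ∧ c K ⊆ U ∧ ∀ L : P, c L ⊆ U → L ∈ 𝒮 := by
  have h' : TopologicalSpace.GenerateOpen
      {𝒱 : Set P | ∃ U : Set Y, IsOpen U ∧ 𝒱 = {K : P | c K ⊆ U}} 𝒮 := h
  induction h' with
  | basic s hs =>
    obtain ⟨U, hU, rfl⟩ := hs
    intro K hK
    exact ⟨U, hU, hK, fun L hL => hL⟩
  | univ => intro K _; exact ⟨univ, isOpen_univ, subset_univ _, fun L _ => mem_univ _⟩
  | inter s t hs ht ihs iht =>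
    intro K hK
    obtain ⟨U, hU, hKU, hUs⟩ := ihs hs K hK.1
    obtain ⟨V, hV, hKV, hVt⟩ := iht ht K hK.2
    exact ⟨U ∩ V, hU.inter hV, subset_inter hKU hKV,
      fun L hL => ⟨hUs L (hL.trans inter_subset_left), hVt L (hL.trans inter_subset_right)⟩⟩
  | sUnion S hS ih =>
    intro K hK
    obtain ⟨s, hs, hKs⟩ := hK
    obtain ⟨U, hU, hKU, hUs⟩ := ih s hs (hS s hs) K hKs
    exact ⟨U, hU, hKU, fun L hL => ⟨s, hs, hUs L hL⟩⟩

end Pool.Agent.Helper18.Vietoris
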